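import Pool.Agent.Helper61.LK.EHS

/-!
MP_e4073d_mp, LK, part CONT: norm continuity in the parameter
-/

set_option autoImplicit false

open MeasureTheory Filter Topology Set
open scoped ENNReal

namespace Pool.Agent.Helper61.LK

open Pool.Agent.Helper94.LK

lemma indep1 (hG : S_GEO) {p p' L : ℝ} (hp : 0 < p) (hp1 : p ≤ 1) (hp' : 0 < p') (hp1' : p' ≤ 1)
    (hL : 0 < L) {s s' : ℝ} (hs : 0 ≤ s) (hs' : 0 ≤ s') :
    ‖crv p L s - crv p L s'‖ = ‖crv p' L s - crv p' L s'‖ := by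
  rcases le_total s L with h1 | h1
  · rcases le_total s' L with h2 | h2
    · rw [hG.arm1 p L s s' hp hp1 hL hs h1 hs' h2, hG.arm1 p' L s s' hp' hp1' hL hs h1 hs' h2]
    · apply (pow_left_inj₀ (norm_nonneg _) (norm_nonneg _) two_ne_zero).1
      rw [hG.corner p L s s' hp hp1 hL hs h1 h2, hG.corner p' L s s' hp' hp1' hL hs h1 h2]
  · rcases le_total s' L with h2 | h2
    · rw [norm_sub_rev, norm_sub_rev (crv p' L s)]
      apply (pow_left_inj₀ (norm_nonneg _) (norm_nonneg _) two_ne_zero).1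
      rw [hG.corner p L s' s hp hp1 hL hs' h2 h1, hG.corner p' L s' s hp' hp1' hL hs' h2 h1]
    · rw [hG.arm2 p L s s' hp hp1 hL h1 h2, hG.arm2 p' L s s' hp' hp1' hL h1 h2]

lemma indep (hG : S_GEO) {p p' L : ℝ} (hp : 0 < p) (hp1 : p ≤ 1) (hp' : 0 < p') (hp1' : p' ≤ 1)
    (hL : 0 < L) {s s' : ℝ} (h : 0 ≤ s * s') :
    ‖crv p L s - crv p L s'‖ = ‖crv p' L s - crv p' L s'‖ := by
  rcases sgn h with ⟨ha, hb⟩ | ⟨ha, hb⟩
  · exact indep1 hG hp hp1 hp' hp1' hL ha hb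
  · have h3 := hG.refl p L (-s) (-s') hp hp1 hL
    have h4 := hG.refl p' L (-s) (-s') hp' hp1' hL
    rw [neg_neg, neg_neg] at h3 h4
    rw [h3, h4]
    exact indep1 hG hp hp1 hp' hp1' hL (by linarith) (by linarith)

lemma bd_diff (hK : S_K1) (hG : S_GEO) {p₀ p p' L : ℝ} (hp₀ : 0 < p₀) (hp : p ∈ Icc p₀ 1)
    (hp' : p' ∈ Icc p₀ 1) (hL : 0 < L) (s s' : ℝ) :
    (GC (crv p' L) s s' - GC (crv p L) s s') ^ 2 ≤
      if (s - 0) * (s' - 0) < 0 then kap (4 / 5 * p₀ * |s - s'|) ^ 2 else 0 := by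
  rw [sub_zero, sub_zero]
  have hp0 : 0 < p := hp₀.trans_le hp.1
  have hp0' : 0 < p' := hp₀.trans_le hp'.1
  by_cases h : 0 ≤ s * s'
  · rw [if_neg (not_lt.2 h)]
    unfold GC
    rw [indep hG hp0 hp.2 hp0' hp'.2 hL h, sub_self]
    simp
  · rw [if_pos (not_le.1 h)]
    have hne : s ≠ s' := by
      rintro rfl
      exact h (mul_self_nonneg s)
    have hpos : 0 < |s - s'| := abs_pos.2 (sub_ne_zero.2 hne)
    have key : ∀ r ∈ Icc p₀ 1, GC (crv r L) s s' ≤ kap (4 / 5 * p₀ * |s - s'|) := by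
      intro r hr
      unfold GC
      apply kap_le hK (by positivity)
      refine le_trans ?_ (hG.low r L s s' (hp₀.trans_le hr.1) hr.2 hL)
      apply mul_le_mul_of_nonneg_right _ hpos.le
      linarith [hr.1]
    have h1 := key p hp
    have h2 := key p' hp'
    have h3 : 0 ≤ GC (crv p L) s s' := hK.nonneg _
    have h4 : 0 ≤ GC (crv p' L) s s' := hK.nonneg _
    apply sq_le_sq'
    · linarith
    · linarith

lemma lim_diff (hK : S_K1) (hG : S_GEO) {p₀ p L : ℝ} (hp₀ : 0 < p₀) (hp : p ∈ Icc p₀ 1)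
    (hL : 0 < L) (s s' : ℝ) :
    Tendsto (fun p' => (GC (crv p' L) s s' - GC (crv p L) s s') ^ 2) (𝓝[Icc p₀ 1] p) (𝓝 0) := by
  have hp0 : 0 < p := hp₀.trans_le hp.1
  by_cases hne : s = s'
  · subst hne
    have h1 : (fun p' => (GC (crv p' L) s s - GC (crv p L) s s) ^ 2) = fun _ => (0 : ℝ) := by
      funext p'
      unfold GC
      simp
    rw [h1]
    exact tendsto_const_nhds
  · have hpos : 0 < ‖crv p L s - crv p L s'‖ := by
      refine lt_of_lt_of_le ?_ (hG.low p L s s' hp0 hp.2 hL)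
      have : 0 < |s - s'| := abs_pos.2 (sub_ne_zero.2 hne)
      positivity
    have h1 : Tendsto (fun p' => ‖crv p' L s - crv p' L s'‖) (𝓝 p)
        (𝓝 ‖crv p L s - crv p L s'‖) := (hG.contp L s s' hL).tendsto p
    have h2 : ContinuousAt kap ‖crv p L s - crv p L s'‖ :=
      hK.cont.continuousAt (Ioi_mem_nhds hpos)
    have h3 : Tendsto (fun p' => GC (crv p' L) s s') (𝓝 p) (𝓝 (GC (crv p L) s s')) :=
      h2.tendsto.comp h1
    have h4 := (h3.sub_const (GC (crv p L) s s')).pow 2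
    rw [sub_self, zero_pow two_ne_zero] at h4
    exact h4.mono_left nhdsWithin_le_nhds

theorem CONT_thm (hK : S_K1) (hK3 : S_K3) (hG : S_GEO) (hH : S_HSB) (hKB : S_KB) : S_CONT := by
  intro L hL p₀ hp₀ p hp ε hε
  have hp0 : 0 < p := hp₀.trans_le hp.1
  have hquad := quad hK hK3 (c := 4 / 5 * p₀) (by positivity) 0
  have hmeas : ∀ p' ∈ Icc p₀ 1, Measurable (fun z : ℝ × ℝ =>
      GC (crv p' L) z.1 z.2 - GC (crv p L) z.1 z.2) := by
    intro p' hp'
    exact (GC_meas hK (hG.conts p' L (hp₀.trans_le hp'.1) hp'.2 hL)).sub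
      (GC_meas hK (hG.conts p L hp0 hp.2 hL))
  have hint : ∀ p' ∈ Icc p₀ 1, Integrable (fun z : ℝ × ℝ =>
      (GC (crv p' L) z.1 z.2 - GC (crv p L) z.1 z.2) ^ 2) := by
    intro p' hp'
    refine hquad.mono' ((hmeas p' hp').pow_const 2).aestronglyMeasurable
      (Eventually.of_forall fun z => ?_)
    rw [Real.norm_of_nonneg (by positivity)]
    exact bd_diff hK hG hp₀ hp hp' hL z.1 z.2
  have hlim : Tendsto (fun p' => ∫ z : ℝ × ℝ,
      (GC (crv p' L) z.1 z.2 - GC (crv p L) z.1 z.2) ^ 2) (𝓝[Icc p₀ 1] p)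
      (𝓝 (∫ _ : ℝ × ℝ, (0 : ℝ))) := by
    refine tendsto_integral_filter_of_dominated_convergence _ ?_ ?_ hquad ?_
    · filter_upwards [self_mem_nhdsWithin] with p' hp'
      exact ((hmeas p' hp').pow_const 2).aestronglyMeasurable
    · filter_upwards [self_mem_nhdsWithin] with p' hp'
      refine Eventually.of_forall fun z => ?_
      rw [Real.norm_of_nonneg (by positivity)]
      exact bd_diff hK hG hp₀ hp hp' hL z.1 z.2
    · exact Eventually.of_forall fun z => lim_diff hK hG hp₀ hp hL z.1 z.2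
  rw [integral_zero, Metric.tendsto_nhdsWithin_nhds] at hlim
  obtain ⟨δ, hδ, hδ'⟩ := hlim (ε ^ 2) (by positivity)
  refine ⟨δ, hδ, ?_⟩
  intro p' hp' hpp f h hf hh
  have h1 := hδ' hp' (by rw [Real.dist_eq]; exact hpp)
  have hnn : 0 ≤ ∫ z : ℝ × ℝ, (GC (crv p' L) z.1 z.2 - GC (crv p L) z.1 z.2) ^ 2 :=
    integral_nonneg fun z => sq_nonneg _
  rw [Real.dist_eq, sub_zero, abs_of_nonneg hnn] at h1
  have h2 := hH (fun s s' => GC (crv p' L) s s' - GC (crv p L) s s') (hmeas p' hp')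
    (hint p' hp')
  have h3 := h2.bd f h hf hh
  have k1 := hKB.kC (crv p' L) (4 / 5 * p') (by have := hp₀.trans_le hp'.1; positivity)
    (hG.conts p' L (hp₀.trans_le hp'.1) hp'.2 hL)
    (fun s s' => hG.low p' L s s' (hp₀.trans_le hp'.1) hp'.2 hL)
  have k2 := hKB.kC (crv p L) (4 / 5 * p) (by positivity)
    (hG.conts p L hp0 hp.2 hL) (fun s s' => hG.low p L s s' hp0 hp.2 hL)
  have h4 : Bil (fun s s' => GC (crv p' L) s s' - GC (crv p L) s s') f h =
      Bil (GC (crv p' L)) f h - Bil (GC (crv p L)) f h := by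
    unfold Bil
    rw [← integral_sub (k1.int f h hf hh) (k2.int f h hf hh)]
    congr 1
    funext z
    ring
  rw [h4] at h3
  refine h3.trans ?_
  have h5 : √(∫ z : ℝ × ℝ, (GC (crv p' L) z.1 z.2 - GC (crv p L) z.1 z.2) ^ 2) ≤ ε := by
    rw [← Real.sqrt_sq hε.le]
    exact Real.sqrt_le_sqrt h1.le
  have h6 : 0 ≤ √(N f) := Real.sqrt_nonneg _
  have h7 : 0 ≤ √(N h) := Real.sqrt_nonneg _
  exact mul_le_mul_of_nonneg_right (mul_le_mul_of_nonneg_right h5 h6) h7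

end Pool.Agent.Helper61.LK
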