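import Pool.Agent.Helper61.LK.Quad

/-!
MP_e4073d_mp, LK, part EHS: the difference kernels are square integrable
-/

set_option autoImplicit false

open MeasureTheory Filter Topology Set
open scoped ENNReal

namespace Pool.Agent.Helper61.LK

open Pool.Agent.Helper94.LK

lemma GC_meas (hK : S_K1) {γ : ℝ → E2} (hγ : Continuous γ) :
    Measurable (Function.uncurry (GC γ)) := by
  have h1 : Continuous fun z : ℝ × ℝ => ‖γ z.1 - γ z.2‖ := by fun_prop
  exact hK.meas.comp h1.measurable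

lemma GS_meas (hK : S_K1) : Measurable (Function.uncurry GS) := by
  have h1 : Continuous fun z : ℝ × ℝ => |z.1 - z.2| := by fun_prop
  exact hK.meas.comp h1.measurable

lemma kap_le (hK : S_K1) {a b : ℝ} (ha : 0 < a) (hab : a ≤ b) : kap b ≤ kap a :=
  hK.anti.antitoneOn (mem_Ioi.2 ha) (mem_Ioi.2 (ha.trans_le hab)) hab

lemma ehs_core (hK : S_K1) (hK3 : S_K3) {γ : ℝ → E2} (hγ : Continuous γ) {c : ℝ} (hc : 0 < c)
    (hlow : ∀ s s', c * |s - s'| ≤ ‖γ s - γ s'‖) (hlip : ∀ s s', ‖γ s - γ s'‖ ≤ |s - s'|)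
    (F : Finset ℝ)
    (hF : ∀ s s', (∀ v ∈ F, 0 ≤ (s - v) * (s' - v)) → ‖γ s - γ s'‖ = |s - s'|) :
    Integrable (fun z : ℝ × ℝ => (GC γ z.1 z.2 - GS z.1 z.2) ^ 2) := by
  have hdom : Integrable (fun z : ℝ × ℝ => ∑ v ∈ F,
      if (z.1 - v) * (z.2 - v) < 0 then kap (c * |z.1 - z.2|) ^ 2 else 0) :=
    integrable_finsetSum _ fun v _ => quad hK hK3 hc v
  have hm : Measurable (fun z : ℝ × ℝ => (GC γ z.1 z.2 - GS z.1 z.2) ^ 2) :=
    ((GC_meas hK hγ).sub (GS_meas hK)).pow_const 2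
  refine hdom.mono' hm.aestronglyMeasurable (Eventually.of_forall fun z => ?_)
  obtain ⟨s, s'⟩ := z
  simp only
  rw [Real.norm_of_nonneg (by positivity)]
  have hnn : ∀ v ∈ F, 0 ≤ if (s - v) * (s' - v) < 0 then kap (c * |s - s'|) ^ 2 else 0 := by
    intro v _
    split_ifs
    · positivity
    · exact le_rfl
  by_cases h : ∀ v ∈ F, 0 ≤ (s - v) * (s' - v)
  · have h1 : GC γ s s' - GS s s' = 0 := by
      unfold GC GS
      rw [hF s s' h, sub_self]
    rw [h1]
    have h2 := Finset.sum_nonneg hnn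
    simpa using h2
  · push Not at h
    obtain ⟨v, hv, hlt⟩ := h
    have hne : s ≠ s' := by
      rintro rfl
      have := mul_self_nonneg (s - v)
      linarith
    have hpos : 0 < |s - s'| := abs_pos.2 (sub_ne_zero.2 hne)
    have h1 : kap ‖γ s - γ s'‖ ≤ kap (c * |s - s'|) := kap_le hK (by positivity) (hlow s s')
    have h2 : kap |s - s'| ≤ kap ‖γ s - γ s'‖ :=
      kap_le hK ((by positivity : 0 < c * |s - s'|).trans_le (hlow s s')) (hlip s s')
    have h3 := hK.nonneg |s - s'|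
    have h4 : (GC γ s s' - GS s s') ^ 2 ≤ kap (c * |s - s'|) ^ 2 := by
      apply pow_le_pow_left₀
      · unfold GC GS
        linarith
      · unfold GC GS
        linarith
    have h5 := Finset.single_le_sum hnn hv
    rw [if_pos hlt] at h5
    exact h4.trans h5

lemma sgn {a b : ℝ} (h : 0 ≤ a * b) : (0 ≤ a ∧ 0 ≤ b) ∨ (a ≤ 0 ∧ b ≤ 0) := mul_nonneg_iff.1 h

lemma straightArm (hG : S_GEO) {p L : ℝ} (hp : 0 < p) (hp1 : p ≤ 1) (hL : 0 < L) {s s' : ℝ}
    (h0 : 0 ≤ (s - 0) * (s' - 0)) (h1 : 0 ≤ (s - L) * (s' - L))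
    (h2 : 0 ≤ (s - -L) * (s' - -L)) : ‖crv p L s - crv p L s'‖ = |s - s'| := by
  rcases sgn h0 with ⟨ha, hb⟩ | ⟨ha, hb⟩
  · rcases sgn h1 with ⟨hc, hd⟩ | ⟨hc, hd⟩
    · exact hG.arm2 p L s s' hp hp1 hL (by linarith) (by linarith)
    · exact hG.arm1 p L s s' hp hp1 hL (by linarith) (by linarith) (by linarith) (by linarith)
  · have h3 := hG.refl p L (-s) (-s') hp hp1 hL
    rw [neg_neg, neg_neg] at h3
    have h4 : |-s - -s'| = |s - s'| := by
      rw [← abs_neg]
      congr 1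
      ring
    rw [h3, ← h4]
    rcases sgn h2 with ⟨hc, hd⟩ | ⟨hc, hd⟩
    · exact hG.arm1 p L _ _ hp hp1 hL (by linarith) (by linarith) (by linarith) (by linarith)
    · exact hG.arm2 p L _ _ hp hp1 hL (by linarith) (by linarith)

theorem EHS_thm (hK : S_K1) (hK3 : S_K3) (hG : S_GEO) : S_EHS where
  eC := by
    intro p L hp hp1 hL
    refine ehs_core hK hK3 (hG.conts p L hp hp1 hL) (c := 4 / 5 * p) (by positivity)
      (fun s s' => hG.low p L s s' hp hp1 hL) (fun s s' => hG.lip p L s s' hp hp1 hL)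
      {0, L, -L} ?_
    intro s s' h
    exact straightArm hG hp hp1 hL (h 0 (by simp)) (h L (by simp)) (h (-L) (by simp))
  eB := by
    refine ehs_core hK hK3 hG.bcont (c := 9 / 10) (by norm_num) ?_ hG.blip {0} ?_
    · intro s s'
      apply (pow_le_pow_iff_left₀ (by positivity) (norm_nonneg _) two_ne_zero).1
      have h1 := hG.blow s s'
      rw [mul_pow, sq_abs]
      have := sq_nonneg (s - s')
      linarith
    · intro s s' h
      have := h 0 (by simp)
      rw [sub_zero, sub_zero] at this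
      exact hG.bsame s s' this

end Pool.Agent.Helper61.LK
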