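import Pool.Agent.Helper61.LK.EHS

/-!
MP_e4073d_mp, LK, part LO: the odd trial function for two bends far apart
-/

set_option autoImplicit false

open MeasureTheory Filter Topology Set
open scoped ENNReal

namespace Pool.Agent.Helper61.LK

open Pool.Agent.Helper94.LK

/-- truncation to `[-R, R]` -/
noncomputable def tr (R : ℝ) (v : ℝ → ℝ) : ℝ → ℝ := (Icc (-R) R).indicator v

lemma tr_ne {R : ℝ} {v : ℝ → ℝ} {s : ℝ} (h : tr R v s ≠ 0) : -R ≤ s ∧ s ≤ R := by
  by_contra hn
  exact h (indicator_of_notMem (fun h' => hn ⟨h'.1, h'.2⟩) _)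

lemma tr_mem {R : ℝ} {v : ℝ → ℝ} (hv : MemLp v 2 volume) : MemLp (tr R v) 2 volume :=
  hv.indicator measurableSet_Icc

lemma tr_int {R : ℝ} {v : ℝ → ℝ} (hv : MemLp v 2 volume) : Integrable (tr R v) := by
  unfold tr
  rw [integrable_indicator_iff measurableSet_Icc]
  have h1 : MemLp v 2 (volume.restrict (Icc (-R) R)) := hv.restrict _
  exact h1.integrable one_le_two

lemma abs_tr_le {R : ℝ} {v : ℝ → ℝ} (s : ℝ) : |tr R v s| ≤ |v s| := by
  unfold tr
  by_cases h : s ∈ Icc (-R) R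
  · rw [indicator_of_mem h]
  · rw [indicator_of_notMem h, abs_zero]
    exact abs_nonneg _

lemma tr_tendsto (v : ℝ → ℝ) (s : ℝ) : Tendsto (fun n : ℕ => tr n v s) atTop (𝓝 (v s)) := by
  apply tendsto_const_nhds.congr'
  obtain ⟨m, hm⟩ := exists_nat_ge |s|
  filter_upwards [eventually_ge_atTop m] with n hn
  have h1 : (m : ℝ) ≤ n := by exact_mod_cast hn
  have h2 := abs_le.1 (hm.trans h1)
  unfold tr
  rw [indicator_of_mem]
  exact ⟨h2.1, h2.2⟩

lemma N_tendsto {v : ℝ → ℝ} (hv : MemLp v 2 volume) :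
    Tendsto (fun n : ℕ => N (tr n v)) atTop (𝓝 (N v)) := by
  unfold N
  refine tendsto_integral_of_dominated_convergence (fun s => v s ^ 2) ?_ hv.integrable_sq ?_ ?_
  · intro n
    exact (tr_mem hv).aestronglyMeasurable.pow 2
  · intro n
    refine Eventually.of_forall fun s => ?_
    rw [Real.norm_of_nonneg (sq_nonneg _)]
    exact sq_le_sq.2 (abs_tr_le s)
  · exact Eventually.of_forall fun s => (tr_tendsto v s).pow 2

lemma Bil_tendsto {G : ℝ → ℝ → ℝ} {M : ℝ} (hG : KerBdd G M) {v : ℝ → ℝ} (hv : MemLp v 2 volume) :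
    Tendsto (fun n : ℕ => Bil G (tr n v) (tr n v)) atTop (𝓝 (Bil G v v)) := by
  unfold Bil
  refine tendsto_integral_of_dominated_convergence (fun z => |G z.1 z.2 * (v z.1 * v z.2)|) ?_
    (hG.int v v hv hv).abs ?_ ?_
  · intro n
    exact (hG.int _ _ (tr_mem hv) (tr_mem hv)).aestronglyMeasurable
  · intro n
    refine Eventually.of_forall fun z => ?_
    rw [Real.norm_eq_abs, abs_mul, abs_mul, abs_mul, abs_mul]
    exact mul_le_mul_of_nonneg_left
      (mul_le_mul (abs_tr_le _) (abs_tr_le _) (abs_nonneg _) (abs_nonneg _)) (abs_nonneg _)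
  · refine Eventually.of_forall fun z => ?_
    exact ((tr_tendsto v z.1).mul (tr_tendsto v z.2)).const_mul _

/-- the first bump -/
def aa (L : ℝ) (w : ℝ → ℝ) (s : ℝ) : ℝ := w (s - L)

/-- the second bump -/
def bb (L : ℝ) (w : ℝ → ℝ) (s : ℝ) : ℝ := w (-s - L)

lemma aa_mem {L : ℝ} {w : ℝ → ℝ} (hw : MemLp w 2 volume) : MemLp (aa L w) 2 volume :=
  hw.comp_measurePreserving (measurePreserving_sub_right volume L)

lemma bb_mem {L : ℝ} {w : ℝ → ℝ} (hw : MemLp w 2 volume) : MemLp (bb L w) 2 volume :=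
  (aa_mem (L := L) hw).comp_measurePreserving (Measure.measurePreserving_neg volume)

lemma aa_int {L : ℝ} {w : ℝ → ℝ} (hw : Integrable w) : Integrable (aa L w) :=
  hw.comp_sub_right L

lemma bb_int {L : ℝ} {w : ℝ → ℝ} (hw : Integrable w) : Integrable (bb L w) :=
  (aa_int (L := L) hw).comp_neg

lemma aa_N (L : ℝ) (w : ℝ → ℝ) : ∫ s, aa L w s ^ 2 = N w :=
  integral_sub_right_eq_self (fun s => w s ^ 2) L

lemma bb_N (L : ℝ) (w : ℝ → ℝ) : ∫ s, bb L w s ^ 2 = N w := by
  rw [← aa_N L w, ← integral_neg_eq_self (fun s => aa L w s ^ 2)]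
  rfl

lemma aa_I (L : ℝ) (w : ℝ → ℝ) : ∫ s, |aa L w s| = ∫ s, |w s| :=
  integral_sub_right_eq_self (fun s => |w s|) L

lemma bb_I (L : ℝ) (w : ℝ → ℝ) : ∫ s, |bb L w s| = ∫ s, |w s| := by
  rw [← aa_I L w, ← integral_neg_eq_self (fun s => |aa L w s|)]
  rfl

lemma Bil_aa (hG : S_GEO) {L R : ℝ} (hL : 0 < L) (hR : R ≤ 2 * L) {w : ℝ → ℝ}
    (hw : ∀ s, w s ≠ 0 → -R ≤ s ∧ s ≤ R) :
    Bil (GC (crv 1 L)) (aa L w) (aa L w) = Bil (GC bnd) w w := by
  unfold Bil
  rw [← integral_sub_right_eq_self (fun z : ℝ × ℝ => GC bnd z.1 z.2 * (w z.1 * w z.2)) (L, L)]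
  congr 1
  funext z
  obtain ⟨s, s'⟩ := z
  simp only [Prod.mk_sub_mk, aa]
  by_cases h1 : w (s - L) = 0
  · rw [h1]; simp
  by_cases h2 : w (s' - L) = 0
  · rw [h2]; simp
  have h3 := hw _ h1
  have h4 := hw _ h2
  unfold GC
  rw [hG.bend L s s' hL (by linarith) (by linarith)]

lemma Bil_bb (hG : S_GEO) {L : ℝ} (hL : 0 < L) (w : ℝ → ℝ) :
    Bil (GC (crv 1 L)) (bb L w) (bb L w) = Bil (GC (crv 1 L)) (aa L w) (aa L w) := by
  unfold Bil
  rw [← integral_neg_eq_self
    (fun z : ℝ × ℝ => GC (crv 1 L) z.1 z.2 * (aa L w z.1 * aa L w z.2))]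
  congr 1
  funext z
  obtain ⟨s, s'⟩ := z
  simp only [Prod.neg_mk, aa, bb]
  unfold GC
  rw [hG.refl 1 L s s' one_pos le_rfl hL]

lemma cross_le (hK : S_K1) (hG : S_GEO) {L R : ℝ} (hL : R < L) (hR : 0 ≤ R) {w : ℝ → ℝ}
    (hwi : Integrable w) (hw : ∀ s, w s ≠ 0 → -R ≤ s ∧ s ≤ R) :
    |Bil (GC (crv 1 L)) (aa L w) (bb L w)| ≤ kap (8 / 5 * (L - R)) * (∫ s, |w s|) ^ 2 := by
  have hL0 : 0 < L := hR.trans_lt hL
  have hprod : Integrable (fun z : ℝ × ℝ => |aa L w z.1| * |bb L w z.2|) :=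
    (aa_int (L := L) hwi).abs.mul_prod (bb_int (L := L) hwi).abs
  have hval : ∫ z : ℝ × ℝ, |aa L w z.1| * |bb L w z.2| = (∫ s, |w s|) ^ 2 := by
    have h1 := integral_prod_mul (μ := (volume : Measure ℝ)) (ν := (volume : Measure ℝ))
      (fun s => |aa L w s|) (fun s => |bb L w s|)
    rw [aa_I, bb_I, ← sq] at h1
    exact h1
  unfold Bil
  calc |∫ z : ℝ × ℝ, GC (crv 1 L) z.1 z.2 * (aa L w z.1 * bb L w z.2)|
      ≤ ∫ z : ℝ × ℝ, |GC (crv 1 L) z.1 z.2 * (aa L w z.1 * bb L w z.2)| :=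
        abs_integral_le_integral_abs
    _ ≤ ∫ z : ℝ × ℝ, kap (8 / 5 * (L - R)) * (|aa L w z.1| * |bb L w z.2|) := by
        refine integral_mono_of_nonneg (Eventually.of_forall fun z => abs_nonneg _)
          (hprod.const_mul _) (Eventually.of_forall fun z => ?_)
        obtain ⟨s, s'⟩ := z
        simp only [aa, bb]
        by_cases h1 : w (s - L) = 0
        · rw [h1]; simp
        by_cases h2 : w (-s' - L) = 0
        · rw [h2]; simp
        have h3 := hw _ h1
        have h4 := hw _ h2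
        rw [abs_mul, abs_mul]
        apply mul_le_mul_of_nonneg_right _ (by positivity)
        unfold GC
        rw [abs_of_nonneg (hK.nonneg _)]
        have h5 := hG.low 1 L s s' one_pos le_rfl hL0
        have h6 : 2 * (L - R) ≤ |s - s'| := by
          rw [abs_of_nonneg (by linarith)]
          linarith
        apply kap_le hK (by linarith)
        linarith
    _ = kap (8 / 5 * (L - R)) * (∫ s, |w s|) ^ 2 := by
        rw [integral_const_mul, hval]

lemma cross_le' (hK : S_K1) (hG : S_GEO) {L R : ℝ} (hL : R < L) (hR : 0 ≤ R) {w : ℝ → ℝ}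
    (hwi : Integrable w) (hw : ∀ s, w s ≠ 0 → -R ≤ s ∧ s ≤ R) :
    |Bil (GC (crv 1 L)) (bb L w) (aa L w)| ≤ kap (8 / 5 * (L - R)) * (∫ s, |w s|) ^ 2 := by
  have h1 : Bil (GC (crv 1 L)) (bb L w) (aa L w) = Bil (GC (crv 1 L)) (aa L w) (bb L w) := by
    unfold Bil
    rw [Measure.volume_eq_prod, ← integral_prod_swap]
    congr 1
    funext z
    obtain ⟨s, s'⟩ := z
    simp only [Prod.swap_prod_mk]
    unfold GC
    rw [norm_sub_rev]
    ring
  rw [h1]
  exact cross_le hK hG hL hR hwi hw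

theorem LO_thm (hK : S_K1) (hK3 : S_K3) (hG : S_GEO) (hKB : S_KB) : S_LO := by
  intro v hv hN δ hδ
  have hbl : ∀ s s', (9 / 10 : ℝ) * |s - s'| ≤ ‖bnd s - bnd s'‖ := by
    intro s s'
    apply (pow_le_pow_iff_left₀ (by positivity) (norm_nonneg _) two_ne_zero).1
    have h1 := hG.blow s s'
    rw [mul_pow, sq_abs]
    have := sq_nonneg (s - s')
    linarith
  have kb := hKB.kC bnd (9 / 10) (by norm_num) hG.bcont hbl
  set B := Bil (GC bnd) v v with hB
  have h1 : Tendsto (fun n : ℕ => Bil (GC bnd) (tr n v) (tr n v) - δ / 4 -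
      (B - δ) * N (tr n v)) atTop (𝓝 (B - δ / 4 - (B - δ) * N v)) :=
    ((Bil_tendsto kb hv).sub_const _).sub ((N_tendsto hv).const_mul _)
  rw [hN] at h1
  have h2 : 0 < B - δ / 4 - (B - δ) * 1 := by linarith
  obtain ⟨n, hn⟩ := (h1.eventually (eventually_gt_nhds h2)).exists
  set w := tr n v with hw
  have hwm : MemLp w 2 volume := tr_mem hv
  have hwi : Integrable w := tr_int hv
  have hws : ∀ s, w s ≠ 0 → -(n : ℝ) ≤ s ∧ s ≤ n := fun s hs => tr_ne hs
  -- choice of `L`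
  have h3 : Tendsto (fun L : ℝ => kap (8 / 5 * (L - n)) * (∫ s, |w s|) ^ 2) atTop (𝓝 0) := by
    have h4 : Tendsto (fun L : ℝ => 8 / 5 * (L - (n : ℝ))) atTop atTop := by
      apply Tendsto.const_mul_atTop (by norm_num)
      exact tendsto_atTop_add_const_right _ _ tendsto_id
    have h5 := (hK3.tend.comp h4).mul_const ((∫ s, |w s|) ^ 2)
    rw [zero_mul] at h5
    exact h5
  have h4 := h3.eventually (eventually_lt_nhds (by linarith : (0 : ℝ) < δ / 4))
  obtain ⟨L₀, hL₀⟩ := Filter.eventually_atTop.1 h4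
  refine ⟨max L₀ (n + 1), ?_⟩
  intro L hL
  have hLL : L₀ ≤ L := (le_max_left _ _).trans hL
  have hLn : (n : ℝ) + 1 ≤ L := (le_max_right _ _).trans hL
  have hn0 : (0 : ℝ) ≤ n := Nat.cast_nonneg n
  have hL0 : 0 < L := by linarith
  have hcr := hL₀ L hLL
  have kc := hKB.kC (crv 1 L) (4 / 5 * 1) (by norm_num) (hG.conts 1 L one_pos le_rfl hL0)
    (fun s s' => hG.low 1 L s s' one_pos le_rfl hL0)
  have ham : MemLp (aa L w) 2 volume := aa_mem hwm
  have hbm : MemLp (bb L w) 2 volume := bb_mem hwm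
  refine ⟨fun s => aa L w s - bb L w s, ham.sub hbm, ?_, ?_⟩
  · intro s
    simp only [aa, bb, neg_neg]
    ring
  · have hNf : N (fun s => aa L w s - bb L w s) = 2 * N w := by
      unfold N
      have h5 : ∀ s, (aa L w s - bb L w s) ^ 2 = aa L w s ^ 2 + bb L w s ^ 2 := by
        intro s
        have h6 : aa L w s * bb L w s = 0 := by
          by_contra hne
          have h7 : w (s - L) ≠ 0 := fun h => hne (by simp [aa, h])
          have h8 : w (-s - L) ≠ 0 := fun h => hne (by simp [bb, h])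
          have h9 := hws _ h7
          have h10 := hws _ h8
          linarith
        linear_combination (-2) * h6
      simp_rw [h5]
      rw [integral_add ham.integrable_sq hbm.integrable_sq, aa_N, bb_N]
      unfold N
      ring
    have hBf : Bil (GC (crv 1 L)) (fun s => aa L w s - bb L w s)
        (fun s => aa L w s - bb L w s) =
        Bil (GC (crv 1 L)) (aa L w) (aa L w) - Bil (GC (crv 1 L)) (aa L w) (bb L w) -
        Bil (GC (crv 1 L)) (bb L w) (aa L w) + Bil (GC (crv 1 L)) (bb L w) (bb L w) := by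
      have i1 := kc.int _ _ ham ham
      have i2 := kc.int _ _ ham hbm
      have i3 := kc.int _ _ hbm ham
      have i4 := kc.int _ _ hbm hbm
      have j1 := integral_sub i1 i2
      have j2 := integral_sub (i1.sub i2) i3
      have j3 := integral_add ((i1.sub i2).sub i3) i4
      simp only [Pi.sub_apply] at j1 j2 j3
      unfold Bil
      rw [← j1, ← j2, ← j3]
      congr 1
      funext z
      ring
    have e1 := Bil_aa hG (R := n) hL0 (by linarith) hws
    have e2 := Bil_bb hG hL0 w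
    have e3 := abs_le.1 (cross_le hK hG (R := n) (L := L) (by linarith) hn0 hwi hws)
    have e4 := abs_le.1 (cross_le' hK hG (R := n) (L := L) (by linarith) hn0 hwi hws)
    rw [hNf, hBf, e2, e1]
    nlinarith [e3.2, e4.2, hcr, hn]

end Pool.Agent.Helper61.LK
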