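import Pool.Agent.Helper94.LK.Spec

/-!
MP_e4073d_mp, LK: square integrability of the kernel on a pair of separated half lines
-/

set_option autoImplicit false

open MeasureTheory Filter Topology Set
open scoped ENNReal

namespace Pool.Agent.Helper61.LK

open Pool.Agent.Helper94.LK

lemma integrable_even {f : ℝ → ℝ} (hf : IntegrableOn f (Ioi 0)) :
    Integrable (fun u : ℝ => f |u|) := by
  have h1 : IntegrableOn (fun u : ℝ => f |u|) (Ioi 0) := by
    refine hf.congr_fun (fun u hu => ?_) measurableSet_Ioi
    rw [abs_of_pos hu]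
  have h2 : IntegrableOn (fun u : ℝ => f |u|) (Iic 0) := by
    rw [← Measure.map_neg_eq_self (volume : Measure ℝ)]
    let m : MeasurableEmbedding fun x : ℝ => -x := (Homeomorph.neg ℝ).measurableEmbedding
    rw [m.integrableOn_map_iff]
    simp_rw [Function.comp_def, abs_neg, neg_preimage, neg_Iic, neg_zero]
    exact (integrableOn_Ici_iff_integrableOn_Ioi).2 h1
  have h3 := h2.union h1
  rw [Iic_union_Ioi] at h3
  exact integrableOn_univ.1 h3

lemma sq_even (hK3 : S_K3) {c : ℝ} (hc : 0 < c) :
    Integrable (fun u : ℝ => 2 * |u| * kap (c * |u|) ^ 2) := by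
  have h1 : IntegrableOn (fun u : ℝ => (c * u) * kap (c * u) ^ 2) (Ioi 0) := by
    have h2 := (integrableOn_Ioi_comp_mul_left_iff (fun u : ℝ => u * kap u ^ 2) 0 hc).2
      (by rw [mul_zero]; exact hK3.intsq)
    exact h2
  have h2 : IntegrableOn (fun u : ℝ => 2 * u * kap (c * u) ^ 2) (Ioi 0) := by
    have h3 := h1.const_mul (2 / c)
    refine IntegrableOn.congr_fun h3 (fun u _ => ?_) measurableSet_Ioi
    field_simp
  exact integrable_even h2

lemma quad (hK : S_K1) (hK3 : S_K3) {c : ℝ} (hc : 0 < c) (v : ℝ) :
    Integrable (fun z : ℝ × ℝ =>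
      if (z.1 - v) * (z.2 - v) < 0 then kap (c * |z.1 - z.2|) ^ 2 else 0) := by
  have hkm : Measurable kap := hK.meas
  have hm : Measurable (fun z : ℝ × ℝ =>
      if (z.1 - v) * (z.2 - v) < 0 then kap (c * |z.1 - z.2|) ^ 2 else 0) := by
    refine Measurable.ite ?_ ?_ measurable_const
    · exact measurableSet_lt (by fun_prop) measurable_const
    · fun_prop
  refine ⟨hm.aestronglyMeasurable, ?_⟩
  rw [hasFiniteIntegral_iff_enorm]
  have hm2 : Measurable (fun z : ℝ × ℝ =>
      if |z.1 - v| < |z.2| then ENNReal.ofReal (kap (c * |z.2|) ^ 2) else 0) := by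
    refine Measurable.ite ?_ ?_ measurable_const
    · exact measurableSet_lt (by fun_prop) (by fun_prop)
    · fun_prop
  calc ∫⁻ z : ℝ × ℝ, ‖if (z.1 - v) * (z.2 - v) < 0 then kap (c * |z.1 - z.2|) ^ 2 else 0‖ₑ
      = ∫⁻ s : ℝ, ∫⁻ s' : ℝ,
          ‖if (s - v) * (s' - v) < 0 then kap (c * |s - s'|) ^ 2 else 0‖ₑ := by
        rw [Measure.volume_eq_prod]
        exact lintegral_prod _ hm.enorm.aemeasurable
    _ ≤ ∫⁻ s : ℝ, ∫⁻ s' : ℝ,
          (if |s - v| < |s' - s| then ENNReal.ofReal (kap (c * |s' - s|) ^ 2) else 0) := by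
        refine lintegral_mono fun s => lintegral_mono fun s' => ?_
        simp only
        split_ifs with h1 h2 h2
        · rw [Real.enorm_eq_ofReal (by positivity), abs_sub_comm s' s]
        · exfalso
          apply h2
          rcases lt_trichotomy s v with h | h | h
          · have h3 : v < s' := by nlinarith
            rw [abs_of_neg (by linarith), abs_of_pos (by linarith)]
            linarith
          · rw [h] at h1
            simp at h1
          · have h3 : s' < v := by nlinarith
            rw [abs_of_pos (by linarith), abs_of_neg (by linarith)]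
            linarith
        · simp
        · simp
    _ = ∫⁻ s : ℝ, ∫⁻ u : ℝ,
          (if |s - v| < |u| then ENNReal.ofReal (kap (c * |u|) ^ 2) else 0) := by
        refine lintegral_congr fun s => ?_
        exact lintegral_sub_right_eq_self
          (fun u : ℝ => if |s - v| < |u| then ENNReal.ofReal (kap (c * |u|) ^ 2) else 0) s
    _ = ∫⁻ u : ℝ, ∫⁻ s : ℝ,
          (if |s - v| < |u| then ENNReal.ofReal (kap (c * |u|) ^ 2) else 0) :=
        lintegral_lintegral_swap hm2.aemeasurable
    _ = ∫⁻ u : ℝ, ENNReal.ofReal (2 * |u| * kap (c * |u|) ^ 2) := by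
        refine lintegral_congr fun u => ?_
        have h1 : ∀ s : ℝ, (if |s - v| < |u| then ENNReal.ofReal (kap (c * |u|) ^ 2) else 0) =
            (Metric.ball v |u|).indicator (fun _ => ENNReal.ofReal (kap (c * |u|) ^ 2)) s := by
          intro s
          by_cases h : |s - v| < |u|
          · rw [if_pos h, indicator_of_mem]
            rw [Metric.mem_ball, Real.dist_eq]
            exact h
          · rw [if_neg h, indicator_of_notMem]
            rw [Metric.mem_ball, Real.dist_eq]
            exact h
        rw [lintegral_congr h1, lintegral_indicator Metric.isOpen_ball.measurableSet,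
          lintegral_const, Measure.restrict_apply_univ, Real.volume_ball, mul_comm,
          ← ENNReal.ofReal_mul (by positivity)]
    _ < ∞ := by
        have h1 := (sq_even hK3 hc).2
        rw [hasFiniteIntegral_iff_ofReal (Eventually.of_forall fun u => by positivity)] at h1
        exact h1

end Pool.Agent.Helper61.LK
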